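import Mathlib
import Pool.Agent.Helper256.KM.FA
import Pool.Agent.Helper256.KM.NB

set_option autoImplicit false

namespace Pool.Agent.Results.MP_6396c4_an.Comparability

open Finset Filter MeasureTheory

/-- The integers `1 ≤ n ≤ N` with exactly `m` prime factors counted with multiplicity: the
frequencies of the Dirichlet polynomial `F_{N,m}(s) = ∑ n^(-s)`. -/
def level (N m : ℕ) : Finset ℕ :=
  (Finset.Icc 1 N).filter (fun n => ArithmeticFunction.cardFactors n = m)

/-- The polynomial of `F_{N,m}` on the infinite torus. A point of the torus is given by its angles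
`θ`, with coordinates `z_q = exp (2 π i θ_q)`, and the integer `n` corresponds to the monomial
`∏ z_q ^ (v_q n)` over the primes `q` dividing `n`. -/
noncomputable def torusPoly (N m : ℕ) (θ : ℕ → UnitAddCircle) : ℂ :=
  ∑ n ∈ level N m, ∏ q ∈ n.primeFactors, (fourier (n.factorization q : ℤ) (θ q) : ℂ)

/-- The norm `‖F_{N,m}‖_p`: the `L^p` norm of the polynomial with respect to the product of
normalised Lebesgue measures on the circle. -/
noncomputable def Fnorm (p : ℝ) (N m : ℕ) : ℝ :=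
  (∫ θ : ℕ → UnitAddCircle, ‖torusPoly N m θ‖ ^ p
    ∂(Measure.infinitePi (fun _ : ℕ => (volume : Measure UnitAddCircle)))) ^ (1 / p)

/-- `m` is `k`-comparable: `‖F_{N,m(N)}‖_{2k} ≤ C ‖F_{N,m(N)}‖_2` for all `N` for which
`F_{N,m(N)}` is not zero. -/
def Comparable (k : ℕ) (m : ℕ → ℕ) : Prop :=
  ∃ C : ℝ, ∀ N : ℕ, 2 ≤ N → (level N (m N)).Nonempty →
    Fnorm (2 * k) N (m N) ≤ C * Fnorm 2 N (m N)

/-- `log log N` -/
noncomputable def LL (N : ℕ) : ℝ := Real.log (Real.log N)

/-- The range of small `m`. For `k = 3` it is `m ≤ (1/3 - 1/K) log log N`. For `k ≥ 4`, with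
`L = log log N`, it is `k m ≤ L + (L ((k-3)/2 log L + (k-1)/2 log log L + K))^(1/2)`. -/
def InRange (k : ℕ) (K : ℝ) (N m : ℕ) : Prop :=
  if k = 3 then (m : ℝ) ≤ (1 / 3 - 1 / K) * LL N
  else (k : ℝ) * m ≤ LL N + Real.sqrt (LL N *
    (((k : ℝ) - 3) / 2 * Real.log (LL N) + ((k : ℝ) - 1) / 2 * Real.log (Real.log (LL N)) + K))

/-- Complete determination of the `k`-comparable sequences for every `k ≥ 3`. -/
theorem result (k : ℕ) (hk : 3 ≤ k) (m : ℕ → ℕ) (hm : ∀ N, 1 ≤ m N) :
    Comparable k m ↔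
      ∃ K : ℝ, 0 < K ∧ ∀ᶠ N : ℕ in atTop, (N : ℝ) ≤ K * 2 ^ (m N) ∨ InRange k K N (m N) := by
  have h := Pool.Agent.Helper256.KM.bdd_iff (k := k) (by omega) m
  have h0 : Comparable k m ↔ Pool.Agent.Helper256.KM.EBdd k m := h
  rw [h0]
  rcases Nat.lt_or_ge 3 k with h3 | h3
  · rw [Pool.Agent.Helper256.KM.final_big (k := k) h3 m hm]
    have hne : k ≠ 3 := by omega
    simp only [InRange, if_neg hne, LL]
  · have e : k = 3 := by omega
    subst e
    rw [Pool.Agent.Helper256.KM.final_three m hm]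
    simp only [InRange, if_true, LL]

end Pool.Agent.Results.MP_6396c4_an.Comparability
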